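import Pool.Agent.TH176.WL.Main

/-!
# The weak Lefschetz property for at least `3 ^ (n - 1)` generic forms in `n + 1` variables

Let `n ≥ 3`, `r ≥ 3 ^ (n - 1)` and `c = r ^ (1 / (n - 1))`. For `r` generic forms of equal degree
`d` in `n + 1` variables over a field of characteristic zero, the multiplication by a linear form on
the quotient `A` has maximal rank as a map from `A_k` to `A_(k+1)` for all `k`, with the exception of
at most `n - 1 + ⌊(2 n - 5) / (c - 1)⌋` consecutive ones, for every `d`, and for all `k` if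
`2 (n - 1)! (d - 1) ^ n ≤ (c - 1) ^ n d ^ (n - 1)`. More generally the degrees may be different.

Idea of the proof. If the forms have maximal rank modulo the linear form then the multiplication has
maximal rank: a relation `x_0 g = ∑ f_i q_i` gives a syzygy of the restrictions. Maximal rank of
`r ≥ 3 ^ N` generic forms in `N + 1` variables outside few degrees is dual to a theorem on general
fat points in the projective space of dimension `N = n - 1`.
-/

set_option autoImplicit false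

namespace Pool.Agent.Results.MP_2ad852_ag.ManyForms

open MvPolynomial

/-- Multiplication by `x_0` as a map from degree `k` to degree `k + 1` of the quotient of the
polynomial ring in `n + 1` variables by the forms `f i` is injective or surjective. -/
def MaximalRank {K : Type} [Field K] {n r : ℕ} (f : Fin r → MvPolynomial (Fin (n + 1)) K)
    (k : ℕ) : Prop :=
  (∀ g : MvPolynomial (Fin (n + 1)) K, g.IsHomogeneous k → X 0 * g ∈ Ideal.span (Set.range f) →
    g ∈ Ideal.span (Set.range f)) ∨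
  (∀ F : MvPolynomial (Fin (n + 1)) K, F.IsHomogeneous (k + 1) →
    ∃ g : MvPolynomial (Fin (n + 1)) K, g.IsHomogeneous k ∧
      F - X 0 * g ∈ Ideal.span (Set.range f))

/-- The weak Lefschetz property in all but few degrees for at least `3 ^ (n - 1)` generic forms in
`n + 1` variables. -/
theorem result (n : ℕ) (hn : 3 ≤ n) (K : Type) [Field K] [CharZero K] (r δ s : ℕ)
    (d : Fin r → ℕ) (hr : 3 ^ (n - 1) ≤ r) (hδ : 1 ≤ δ) (hd : ∀ i, δ ≤ d i)
    (h : (∀ i, 3 * d i ≤ 4 * δ) ∨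
      (r : ℝ) ^ (((n : ℝ) - 2) / (n - 1)) * (2 * δ - 1) < ∑ i, ((2 * δ - d i : ℕ) : ℝ)) :
    ∃ k₀ : ℕ,
      ∃ P : MvPolynomial (Σ i : Fin r, {m : Fin (n + 1) →₀ ℕ // Finsupp.degree m = d i}) K,
      P ≠ 0 ∧
      ∀ f : Fin r → MvPolynomial (Fin (n + 1)) K, (∀ i, (f i).IsHomogeneous (d i)) →
        MvPolynomial.eval
            (fun s : (Σ i : Fin r, {m : Fin (n + 1) →₀ ℕ // Finsupp.degree m = d i}) =>
              (f s.1).coeff s.2.1) P ≠ 0 →
        ∀ k : ℕ,
          ((r : ℝ) ^ ((1 : ℝ) / (n - 1)) * (k + n - δ) + (n - 4) < k ∨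
            (r : ℝ) ^ (((n : ℝ) - 2) / (n - 1)) * (k + 1) < ∑ i, ((k + 2 - d i : ℕ) : ℝ) ∨
            ((∀ i, d i ≤ δ + s) ∧ (k < k₀ ∨ (k₀ : ℝ) + (n - 2 + s) +
              (2 * n - 5 + s) / ((r : ℝ) ^ ((1 : ℝ) / (n - 1)) - 1) < k)) ∨
            ((∀ i, d i ≤ δ + s) ∧
              2 * (n - 1).factorial * (δ - 1 + (r : ℝ) ^ ((1 : ℝ) / (n - 1)) * s) ^ n ≤
                ((r : ℝ) ^ ((1 : ℝ) / (n - 1)) - 1) ^ n * (δ : ℝ) ^ (n - 1))) →
          MaximalRank f k := by
  obtain ⟨j, rfl⟩ : ∃ j, n = j + 3 := ⟨n - 3, by omega⟩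
  have e3 : j + 3 - 1 = j + 2 := rfl
  rw [e3] at hr
  have hr0 : 0 < r := lt_of_lt_of_le (by positivity) hr
  obtain ⟨h0, hu, huE⟩ := Pool.Agent.H932R5.pos_root (E := j + 1) hr0
  have c1 : (((j + 1 : ℕ) : ℝ) + 1) = ((j + 3 : ℕ) : ℝ) - 1 := by push_cast; ring
  have c2 : ((j + 1 : ℕ) : ℝ) = ((j + 3 : ℕ) : ℝ) - 2 := by push_cast; ring
  rw [c1] at h0 hu huE
  rw [c2] at huE
  obtain ⟨u, hu1⟩ : ∃ u : ℝ, (r : ℝ) ^ ((1 : ℝ) / (((j + 3 : ℕ) : ℝ) - 1)) = u := ⟨_, rfl⟩
  rw [hu1] at h0 hu huE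
  rw [huE] at h
  have hu3 : 3 ≤ u := by
    by_contra hcon
    push Not at hcon
    have h1 : u ^ (j + 1 + 1) < 3 ^ (j + 1 + 1) := pow_lt_pow_left₀ hcon h0.le (by omega)
    rw [hu] at h1
    have h2 : r < 3 ^ (j + 2) := by exact_mod_cast h1
    exact absurd hr (not_le.2 h2)
  obtain ⟨k₀, P, hP, hP2⟩ := Pool.Agent.TH176.WL.wl_many j K r δ s d u hu3 hu hδ hd h
  refine ⟨k₀ - 1, P, hP, fun f hf hfP k hk => ?_⟩
  rw [hu1, huE, e3] at hk
  have d0 : ((k + 1 : ℕ) : ℝ) = k + 1 := by push_cast; ring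
  refine hP2 f hf hfP k ?_
  rw [d0]
  rcases hk with hk | hk | ⟨hs, hk⟩ | ⟨hs, hk⟩
  · left
    have d1 : (k : ℝ) + ((j + 3 : ℕ) : ℝ) - δ = k + 1 + j + 2 - δ := by push_cast; ring
    have d2 : ((j + 3 : ℕ) : ℝ) - 4 = j - 1 := by push_cast; ring
    rw [d1, d2] at hk
    linarith
  · right; left
    exact hk
  · right; right; left
    refine ⟨hs, ?_⟩
    have d3 : ((j + 3 : ℕ) : ℝ) - 2 + s = j + 1 + s := by push_cast; ring
    have d4 : 2 * ((j + 3 : ℕ) : ℝ) - 5 + s = 2 * j + 1 + s := by push_cast; ring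
    rw [d3, d4] at hk
    rcases hk with hk | hk
    · left; omega
    · right
      have h1 : (k₀ : ℝ) ≤ ((k₀ - 1 : ℕ) : ℝ) + 1 := by
        have : k₀ ≤ (k₀ - 1) + 1 := by omega
        exact_mod_cast this
      linarith
  · right; right; right
    exact ⟨hs, hk⟩

end Pool.Agent.Results.MP_2ad852_ag.ManyForms
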